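import Pool.Agent.H386.Defs
import Pool.Agent.H386.Num7

/-!
`sqrt 2` is not a limit point of the set of global dimensions of spherical fusion categories over
the complex numbers.

`sphericalDims` (in `Pool.Agent.H386.Defs`) is the set of all real numbers which are global
dimensions of spherical fusion categories over the complex numbers.  `AccPt x (principal S)` is
Mathlib's statement that `x` is a limit point (accumulation point) of the set `S`: every
neighbourhood of `x` contains a point of `S` other than `x`.

Outline of the proof (all of it is formalised, no hypothesis is assumed): the inequality
`8 dim C / f^2 <= 3 dim C + 4 + sum_V nu_2(V) dim V`, where `f = sum_V |chi(V)|^2` for a character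
`chi` of the Grothendieck ring and `nu_2` is the Frobenius-Schur indicator, is proved with the
Drinfeld centre.  Applied to all Galois conjugates of `C` it shows, by averaging, that for
`dim C <= 1.48` the rank of `C`, all conjugates of `dim C` and their number are bounded.  Hence
only finitely many values `dim C <= 1.48` occur.
-/

set_option autoImplicit false

namespace Pool.Agent.Results.MP_d1a06a_al.SqrtTwoNotLimit

universe v u

open Pool.Agent.H386

/-- `√2` is not a limit point of the set of global dimensions of spherical fusion categories. -/
theorem result : ¬ AccPt (Real.sqrt 2) (Filter.principal sphericalDims.{v, u}) :=
  not_accPt

end Pool.Agent.Results.MP_d1a06a_al.SqrtTwoNotLimit
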